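import Pool.Agent.Lib_helper20.FiskSimple

/-!
# Fisk's determinant theorem for `3 × 3` matrices (MP_fa50a1_an)

`T₃` maps the polynomials of the class `L-P⁺` into `L-P⁺`; moreover `T₃ p` has the degree and the
order of vanishing at `0` of `p`, and its nonzero zeros are simple.
-/

set_option autoImplicit false

namespace Pool.Agent.Results.MP_fa50a1_an.FiskThreeByThree

open Polynomial

/-- The class `L-P`: the functions which are limits, uniformly on compact subsets of `ℂ`, of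
sequences of real polynomials each of which has only real zeros. -/
def LP (f : ℂ → ℂ) : Prop :=
  ∃ P : ℕ → ℝ[X], (∀ n, ∀ z : ℂ, aeval z (P n) = 0 → z.im = 0) ∧
    ∀ K : Set ℂ, IsCompact K →
      TendstoUniformlyOn (fun n z => aeval z (P n)) f Filter.atTop K

/-- A real polynomial belongs to `L-P⁺` if, as a function on `ℂ`, it belongs to `L-P` and all its
coefficients are `≥ 0`. -/
def LPplus (p : ℝ[X]) : Prop := LP (fun z => aeval z p) ∧ ∀ k, 0 ≤ p.coeff k

/-- The coefficient `a_j` of `p`, for `j ∈ ℤ`; it is `0` for `j < 0` and for `j > n`, `n` the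
degree of `p`. -/
noncomputable def a (p : ℝ[X]) (j : ℤ) : ℝ :=
  if j < 0 ∨ (p.natDegree : ℤ) < j then 0 else p.coeff j.toNat

/-- The matrix `M_k`; the entry in row `i` and column `j` is `a_{k + j - i}`. -/
noncomputable def M (p : ℝ[X]) (k : ℕ) : Matrix (Fin 3) (Fin 3) ℝ :=
  Matrix.of fun i j => a p ((k : ℤ) + ((j : ℕ) : ℤ) - ((i : ℕ) : ℤ))

/-- `T₃ p = ∑_{0 ≤ k ≤ n} det(M_k) x^k`. -/
noncomputable def T3 (p : ℝ[X]) : ℝ[X] :=
  ∑ k ∈ Finset.range (p.natDegree + 1), C (M p k).det * X ^ k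

theorem a_eq (p : ℝ[X]) (j : ℤ) : a p j = if 0 ≤ j then p.coeff j.toNat else 0 := by
  unfold a
  by_cases h1 : j < 0
  · rw [if_pos (Or.inl h1), if_neg (not_le.2 h1)]
  · by_cases h2 : (p.natDegree : ℤ) < j
    · rw [if_pos (Or.inr h2), if_pos (not_lt.1 h1), coeff_eq_zero_of_natDegree_lt (by omega)]
    · rw [if_neg (by tauto), if_pos (not_lt.1 h1)]

theorem T3_eq (p : ℝ[X]) : T3 p = ∑ k ∈ Finset.range (p.natDegree + 1),
          Polynomial.C (Matrix.det (Matrix.of (fun i j : Fin 3 =>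
            if 0 ≤ (k : ℤ) + ((j : ℕ) : ℤ) - ((i : ℕ) : ℤ)
            then p.coeff ((k : ℤ) + ((j : ℕ) : ℤ) - ((i : ℕ) : ℤ)).toNat
            else (0 : ℝ)))) * Polynomial.X ^ k := by
  unfold T3 M
  simp only [a_eq]

theorem real_zeros {p : ℝ[X]} (hp : LP (fun z => aeval z p)) (h0 : p ≠ 0) (z : ℂ)
    (hz : aeval z p = 0) : z.im = 0 := by
  obtain ⟨P, hP, hlim⟩ := hp
  refine Pool.Agent.Lib_helper20.Fisk.real_of_limit P hP p (fun w => ?_) h0 z hz
  exact (hlim {w} isCompact_singleton).tendsto_at (Set.mem_singleton w)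

theorem lp_of_real {p : ℝ[X]} (hp : ∀ z : ℂ, aeval z p = 0 → z.im = 0) :
    LP (fun z => aeval z p) := by
  refine ⟨fun _ => p, fun _ => hp, fun K _ => ?_⟩
  intro u hu
  exact Filter.Eventually.of_forall fun _ x _ => refl_mem_uniformity hu

theorem lp_zero : LP (fun z => aeval z (0 : ℝ[X])) := by
  refine ⟨fun n => C (1 / ((n : ℝ) + 1)), ?_, fun K _ => ?_⟩
  · intro n z hz
    exfalso
    rw [aeval_C] at hz
    have h1 : (1 / ((n : ℝ) + 1)) ≠ 0 := by positivity
    exact h1 (Complex.ofReal_eq_zero.1 hz)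
  · rw [Metric.tendstoUniformlyOn_iff]
    intro ε hε
    have h1 := tendsto_one_div_add_atTop_nhds_zero_nat (𝕜 := ℝ)
    have h2 := (Metric.tendsto_nhds.1 h1) ε hε
    filter_upwards [h2] with n hn z _
    rw [aeval_C, map_zero, dist_comm]
    rw [dist_zero_right] at hn ⊢
    calc ‖(algebraMap ℝ ℂ) (1 / ((n : ℝ) + 1))‖ = ‖(1 / ((n : ℝ) + 1) : ℝ)‖ :=
          norm_algebraMap' ℂ _
      _ < ε := hn

theorem rootMult (c : ℝ) (hc : 0 < c) (s : ℕ) (l : List ℝ) (p : ℝ[X])
    (hp : p = C c * X ^ s * (l.map (fun x => 1 + C x * X)).prod) : p.rootMultiplicity 0 = s := by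
  have h1 : (C c * (l.map (fun x => (1 + C x * X : ℝ[X]))).prod).eval 0 ≠ 0 := by
    rw [eval_mul, eval_C, Pool.Agent.Lib_helper20.Fisk.eval_zero_list, mul_one]
    exact hc.ne'
  have h2 : (C c * (l.map (fun x => (1 + C x * X : ℝ[X]))).prod) ≠ 0 := by
    intro h
    rw [h, eval_zero] at h1
    exact h1 rfl
  have h3 := rootMultiplicity_mul_X_sub_C_pow (a := (0 : ℝ)) (n := s) h2
  rw [C_0, sub_zero, rootMultiplicity_eq_zero h1, zero_add] at h3
  have h4 : p = C c * (l.map (fun x => (1 + C x * X : ℝ[X]))).prod * X ^ s := by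
    rw [hp]
    exact mul_right_comm _ _ _
  rw [h4]
  exact h3

/-- **Fisk's conjecture for `3 × 3` determinants.** If `p` is a polynomial of the class `L-P⁺`,
then so is `T₃ p`; if `p ≠ 0`, then `T₃ p` is a nonzero polynomial with only real zeros, of the
same degree and with the same order of vanishing at `0`, and all its nonzero zeros are simple. -/
theorem result (p : ℝ[X]) (hp : LPplus p) :
    LPplus (T3 p) ∧
      (p ≠ 0 → T3 p ≠ 0 ∧ (∀ z : ℂ, aeval z (T3 p) = 0 → z.im = 0) ∧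
        (T3 p).natDegree = p.natDegree ∧
        (T3 p).rootMultiplicity 0 = p.rootMultiplicity 0 ∧
        ∀ x : ℝ, x ≠ 0 → (T3 p).rootMultiplicity x ≤ 1) := by
  rcases eq_or_ne p 0 with rfl | h0
  · have h1 : T3 0 = 0 := by
      unfold T3
      rw [natDegree_zero, zero_add, Finset.sum_range_one, pow_zero, mul_one]
      have : (M 0 0).det = 0 := by
        rw [Matrix.det_fin_three]
        simp [M, a]
      rw [this, C_0]
    rw [h1]
    exact ⟨⟨lp_zero, fun k => by simp⟩, fun h => absurd rfl h⟩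
  · obtain ⟨c, b, s, l, ζ, hc, hb, hl, hfac, hdeg, hζ, hζ2, hq⟩ :=
      Pool.Agent.Lib_helper20.Fisk.main_factor p h0 hp.2 (real_zeros hp.1 h0) (T3 p) (T3_eq p)
    obtain ⟨e1, e2, e3, e4, e5, e6⟩ :=
      Pool.Agent.Lib_helper20.Fisk.roots_fac b hb s l.length ζ hζ hζ2 (T3 p) hq
    refine ⟨⟨lp_of_real e3, e2⟩, fun _ => ⟨e1, e3, ?_, ?_, e6⟩⟩
    · rw [e4, hdeg]
    · rw [e5, rootMult c hc s l p hfac]

end Pool.Agent.Results.MP_fa50a1_an.FiskThreeByThree
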